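import Mathlib

/-!
# The point pair function of the complement of a line in `ℝ³` is a metric

Let `z*` be the point obtained from `z` by the half-turn about the axis. Then `|z - z*| = 2 d(z)`
and `|x - z*|² ≤ |x - z|² + 4 d(x) d(z)`, so Ptolemy's inequality for `x, z, y, z*` gives
`s(x,y) ≤ s(x,z) √(1+s(z,y)²) + s(z,y) √(1+s(x,z)²)` for `s(x,y) = |x-y| / (2 √(d(x) d(y)))`,
which is the triangle inequality for `2 arsinh s`; and `p = tanh (arsinh s)`.
-/

set_option autoImplicit false

open Metric Set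

namespace Pool.Agent.Results.MP_a15e14_gt.PointPairMetric

/-- Euclidean 3-space. -/
abbrev E3 : Type := EuclideanSpace ℝ (Fin 3)

/-- The `z`-axis of Euclidean 3-space: the points `(0, 0, t)`. -/
def zAxis : Set E3 := {x | x 0 = 0 ∧ x 1 = 0}

/-- The complement `G` of the `z`-axis in Euclidean 3-space. -/
def G : Set E3 := zAxisᶜ

/-- The Euclidean distance from `x` to the boundary of `G`. -/
noncomputable def dG (x : E3) : ℝ := infDist x (frontier G)

/-- The point pair function of `G`. -/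
noncomputable def pG (x y : E3) : ℝ := dist x y / √(dist x y ^ 2 + 4 * dG x * dG y)

/-- the distance from the axis -/
noncomputable def r (x : E3) : ℝ := √(x 0 ^ 2 + x 1 ^ 2)

lemma isClosed_zAxis : IsClosed zAxis := by
  have h0 : Continuous fun x : E3 => x 0 := by fun_prop
  have h1 : Continuous fun x : E3 => x 1 := by fun_prop
  exact (isClosed_eq h0 continuous_const).inter (isClosed_eq h1 continuous_const)

/-- the boundary of `G` is the axis -/
lemma frontier_G : frontier G = zAxis := by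
  unfold G
  rw [frontier_compl, isClosed_zAxis.frontier_eq]
  have : interior zAxis = ∅ := by
    rw [Set.eq_empty_iff_forall_notMem]
    intro x hx
    rw [mem_interior_iff_mem_nhds, Metric.mem_nhds_iff] at hx
    obtain ⟨ε, hε, hb⟩ := hx
    have h1 : x + EuclideanSpace.single (0 : Fin 3) (ε / 2) ∈ ball x ε := by
      rw [mem_ball, dist_eq_norm]
      simp only [add_sub_cancel_left, EuclideanSpace.norm_single, Real.norm_eq_abs]
      rw [abs_of_pos (by linarith)]
      linarith
    have h2 := (hb h1).1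
    have h3 : x ∈ ball x ε := mem_ball_self hε
    have h4 := (hb h3).1
    simp at h2
    linarith
  rw [this, diff_empty]

lemma dist_sq (x y : E3) :
    dist x y ^ 2 = (x 0 - y 0) ^ 2 + (x 1 - y 1) ^ 2 + (x 2 - y 2) ^ 2 := by
  rw [EuclideanSpace.dist_eq, Real.sq_sqrt (by positivity)]
  simp [Fin.sum_univ_three, Real.dist_eq]

lemma dG_eq (x : E3) : dG x = r x := by
  unfold dG
  rw [frontier_G]
  apply le_antisymm
  · set q : E3 := !₂[0, 0, x 2] with hq
    have hmem : q ∈ zAxis := by simp [zAxis, hq]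
    refine (infDist_le_dist_of_mem hmem).trans ?_
    unfold r
    apply Real.le_sqrt_of_sq_le
    rw [dist_sq]
    simp [hq]
  · have hne : zAxis.Nonempty := ⟨0, by simp [zAxis]⟩
    rw [Metric.le_infDist hne]
    intro y hy
    unfold r
    rw [Real.sqrt_le_left dist_nonneg, dist_sq, hy.1, hy.2]
    nlinarith [sq_nonneg (x 2 - y 2)]

lemma r_pos {x : E3} (hx : x ∈ G) : 0 < r x := by
  unfold r
  apply Real.sqrt_pos.2
  by_contra h
  apply hx
  have h0 := sq_nonneg (x 0)
  have h1 := sq_nonneg (x 1)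
  constructor
  · have : x 0 ^ 2 = 0 := by linarith
    exact pow_eq_zero_iff (two_ne_zero) |>.1 this
  · have : x 1 ^ 2 = 0 := by linarith
    exact pow_eq_zero_iff (two_ne_zero) |>.1 this

/-- half-turn about the axis -/
noncomputable def turn (z : E3) : E3 := !₂[-z 0, -z 1, z 2]

lemma dist_turn_self (z : E3) : dist z (turn z) = 2 * r z := by
  have h : dist z (turn z) ^ 2 = (2 * r z) ^ 2 := by
    rw [dist_sq, mul_pow]
    unfold r
    rw [Real.sq_sqrt (by positivity)]
    simp [turn]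
    ring
  have hr : 0 ≤ 2 * r z := by unfold r; positivity
  exact (sq_eq_sq₀ dist_nonneg hr).1 h

lemma dist_turn_le (x z : E3) : dist x (turn z) ≤ √(dist x z ^ 2 + 4 * r x * r z) := by
  apply Real.le_sqrt_of_sq_le
  rw [dist_sq, dist_sq]
  have h1 : x 0 * z 0 + x 1 * z 1 ≤ r x * r z := by
    unfold r
    rw [← Real.sqrt_mul (by positivity)]
    apply Real.le_sqrt_of_sq_le
    nlinarith [sq_nonneg (x 0 * z 1 - x 1 * z 0)]
  simp [turn]
  nlinarith

/-- `sinh` of half the distance -/
noncomputable def s (x y : E3) : ℝ := dist x y / (2 * √(r x * r y))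

lemma s_nonneg (x y : E3) : 0 ≤ s x y := by unfold s; positivity

lemma one_add_s_sq {x y : E3} (hx : 0 < r x) (hy : 0 < r y) :
    √(1 + s x y ^ 2) = √(dist x y ^ 2 + 4 * r x * r y) / (2 * √(r x * r y)) := by
  have hp : 0 < r x * r y := mul_pos hx hy
  have h2 : (2 * √(r x * r y)) ^ 2 = 4 * r x * r y := by
    rw [mul_pow, Real.sq_sqrt hp.le]; ring
  have h3 : 1 + s x y ^ 2 = (dist x y ^ 2 + 4 * r x * r y) / (2 * √(r x * r y)) ^ 2 := by
    unfold s
    rw [div_pow, h2]
    field_simp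
    ring
  rw [h3, Real.sqrt_div (by positivity), Real.sqrt_sq (by positivity)]

lemma pG_eq {x y : E3} (hx : x ∈ G) (hy : y ∈ G) : pG x y = s x y / √(1 + s x y ^ 2) := by
  have hx' := r_pos hx
  have hy' := r_pos hy
  have hp : 0 < √(r x * r y) := Real.sqrt_pos.2 (mul_pos hx' hy')
  rw [one_add_s_sq hx' hy']
  unfold pG s
  rw [dG_eq, dG_eq]
  have h4 : 0 < √(dist x y ^ 2 + 4 * r x * r y) := Real.sqrt_pos.2 (by positivity)
  field_simp

lemma s_triangle {x y z : E3} (hx : x ∈ G) (hy : y ∈ G) (hz : z ∈ G) :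
    s x y ≤ s x z * √(1 + s z y ^ 2) + s z y * √(1 + s x z ^ 2) := by
  have hx' := r_pos hx
  have hy' := r_pos hy
  have hz' := r_pos hz
  have hpt := EuclideanGeometry.mul_dist_le_mul_dist_add_mul_dist x z y (turn z)
  rw [dist_turn_self] at hpt
  have h1 : dist x y * (2 * r z) ≤ dist x z * √(dist z y ^ 2 + 4 * r z * r y)
      + dist z y * √(dist x z ^ 2 + 4 * r x * r z) := by
    have h2 := dist_turn_le y z
    have h3 := dist_turn_le x z
    have h4 : dist y z ^ 2 + 4 * r y * r z = dist z y ^ 2 + 4 * r z * r y := by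
      rw [dist_comm y z]; ring
    rw [h4] at h2
    calc dist x y * (2 * r z) ≤ dist x z * dist y (turn z) + dist z y * dist x (turn z) := hpt
      _ ≤ _ := by gcongr
  rw [one_add_s_sq hz' hy', one_add_s_sq hx' hz']
  unfold s
  have ex : 0 < √(r x) := Real.sqrt_pos.2 hx'
  have ey : 0 < √(r y) := Real.sqrt_pos.2 hy'
  have ez : 0 < √(r z) := Real.sqrt_pos.2 hz'
  have sz : √(r z) * √(r z) = r z := Real.mul_self_sqrt hz'.le
  rw [Real.sqrt_mul hx'.le, Real.sqrt_mul hx'.le, Real.sqrt_mul hz'.le]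
  have h5 : dist x z / (2 * (√(r x) * √(r z))) *
      (√(dist z y ^ 2 + 4 * r z * r y) / (2 * (√(r z) * √(r y)))) +
      dist z y / (2 * (√(r z) * √(r y))) *
      (√(dist x z ^ 2 + 4 * r x * r z) / (2 * (√(r x) * √(r z))))
      = (dist x z * √(dist z y ^ 2 + 4 * r z * r y)
      + dist z y * √(dist x z ^ 2 + 4 * r x * r z)) / (4 * (√(r x) * √(r y)) * (√(r z) * √(r z))) := by
    field_simp
    ring
  rw [h5, sz, div_le_div_iff₀ (by positivity) (by positivity)]
  nlinarith [mul_pos ex ey]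

lemma p_add {a b c : ℝ} (ha : 0 ≤ a) (hb : 0 ≤ b) (hc : 0 ≤ c)
    (h : c ≤ a * √(1 + b ^ 2) + b * √(1 + a ^ 2)) :
    c / √(1 + c ^ 2) ≤ a / √(1 + a ^ 2) + b / √(1 + b ^ 2) := by
  set A := √(1 + a ^ 2) with hA
  set B := √(1 + b ^ 2) with hB
  have hA2 : A ^ 2 = 1 + a ^ 2 := Real.sq_sqrt (by positivity)
  have hB2 : B ^ 2 = 1 + b ^ 2 := Real.sq_sqrt (by positivity)
  have hA0 : 0 < A := Real.sqrt_pos.2 (by positivity)
  have hB0 : 0 < B := Real.sqrt_pos.2 (by positivity)
  set c' := a * B + b * A with hc'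
  have hc'0 : 0 ≤ c' := by positivity
  have h1 : √(1 + c' ^ 2) = A * B + a * b := by
    rw [Real.sqrt_eq_iff_mul_self_eq (by positivity) (by positivity)]
    rw [hc']
    nlinarith
  have h2 : c / √(1 + c ^ 2) ≤ c' / √(1 + c' ^ 2) := by
    rw [div_le_div_iff₀ (Real.sqrt_pos.2 (by positivity)) (Real.sqrt_pos.2 (by positivity))]
    apply le_of_sq_le_sq _ (by positivity)
    rw [mul_pow, mul_pow, Real.sq_sqrt (by positivity), Real.sq_sqrt (by positivity)]
    have : c ^ 2 ≤ c' ^ 2 := by gcongr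
    nlinarith
  refine h2.trans ?_
  rw [h1, div_add_div _ _ hA0.ne' hB0.ne', div_le_div_iff₀ (by positivity) (by positivity), hc']
  have : 0 ≤ (a * B + A * b) * (a * b) := by positivity
  nlinarith

/-- The point pair function `|x-y| / √(|x-y|² + 4 d(x) d(y))` of the complement `G` of the `z`-axis in
`ℝ³` is a metric on `G`. -/
theorem result : (∀ x ∈ G, ∀ y ∈ G, ∀ z ∈ G, pG x y ≤ pG x z + pG z y) ∧
    ∃ m : MetricSpace G, ∀ x y : G, m.dist x y = pG x y := by
  have tri : ∀ x ∈ G, ∀ y ∈ G, ∀ z ∈ G, pG x y ≤ pG x z + pG z y := by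
    intro x hx y hy z hz
    rw [pG_eq hx hy, pG_eq hx hz, pG_eq hz hy]
    exact p_add (s_nonneg _ _) (s_nonneg _ _) (s_nonneg _ _) (s_triangle hx hy hz)
  refine ⟨tri, ?_⟩
  refine ⟨{ dist := fun x y => pG x y
            dist_self := fun x => by simp [pG]
            dist_comm := fun x y => by simp only [pG, dist_comm (x : E3) (y : E3)]; ring_nf
            dist_triangle := fun x y z => tri x x.2 z z.2 y y.2
            eq_of_dist_eq_zero := ?_ }, fun x y => rfl⟩
  intro x y hxy
  have h1 : pG x y = 0 := hxy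
  unfold pG at h1
  rw [dG_eq, dG_eq] at h1
  have hx' := r_pos x.2
  have hy' := r_pos y.2
  have h4 : 0 < √(dist (x : E3) y ^ 2 + 4 * r x * r y) := Real.sqrt_pos.2 (by positivity)
  rw [div_eq_zero_iff] at h1
  rcases h1 with h | h
  · exact Subtype.ext (dist_eq_zero.1 h)
  · exact absurd h h4.ne'

end Pool.Agent.Results.MP_a15e14_gt.PointPairMetric
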